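import Mathlib

/-!
Homogenisation of quasimorphisms of an arbitrary group.
-/

namespace Pool.Agent.H67.NL

open Filter Topology

variable {G : Type*} [Group G]

/-- `f` is a quasimorphism with defect at most `D`. -/
def QM (f : G → ℝ) (D : ℝ) : Prop := ∀ x y, |f (x * y) - f x - f y| ≤ D

theorem QM.nonneg {f : G → ℝ} {D : ℝ} (h : QM f D) : 0 ≤ D :=
  le_trans (abs_nonneg _) (h 1 1)

theorem QM.one {f : G → ℝ} {D : ℝ} (h : QM f D) : |f 1| ≤ D := by
  have h1 := h 1 1
  rw [mul_one] at h1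
  have h2 : f 1 - f 1 - f 1 = -f 1 := by ring
  rw [h2, abs_neg] at h1
  exact h1

theorem QM.powSucc {f : G → ℝ} {D : ℝ} (h : QM f D) (x : G) (n : ℕ) :
    |f (x ^ (n + 1)) - ((n : ℝ) + 1) * f x| ≤ (n : ℝ) * D := by
  induction n with
  | zero => simp
  | succ n ih =>
    have h1 := h (x ^ (n + 1)) x
    rw [← _root_.pow_succ] at h1
    push_cast
    have h2 := abs_le.1 h1
    have h3 := abs_le.1 ih
    rw [abs_le]
    constructor <;> nlinarith [h2.1, h2.2, h3.1, h3.2]

theorem exists_lim {f : G → ℝ} {D : ℝ} (h : QM f D) (x : G) :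
    ∃ l : ℝ, Tendsto (fun n : ℕ => f (x ^ n) / n) atTop (𝓝 l) := by
  have hD := h.nonneg
  set u : ℕ → ℝ := fun n => f (x ^ n) + D with hu
  have hsub : Subadditive u := by
    intro m n
    have h1 := (abs_le.1 (h (x ^ m) (x ^ n))).2
    rw [← pow_add] at h1
    simp only [hu]
    linarith
  have hbdd : BddBelow (Set.range fun n : ℕ => u n / n) := by
    refine ⟨min 0 (f x - D), ?_⟩
    rintro _ ⟨n, rfl⟩
    rcases n with _ | n
    · simp
    · refine le_trans (min_le_right _ _) ?_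
      have h1 := (abs_le.1 (h.powSucc x n)).1
      have h2 : (0 : ℝ) < ((n + 1 : ℕ) : ℝ) := by positivity
      show f x - D ≤ u (n + 1) / ((n + 1 : ℕ) : ℝ)
      rw [le_div_iff₀ h2]
      simp only [hu]
      push_cast
      nlinarith
  refine ⟨hsub.lim, ?_⟩
  have h1 := hsub.tendsto_lim hbdd
  have h2 : Tendsto (fun n : ℕ => D / (n : ℝ)) atTop (𝓝 0) :=
    tendsto_const_div_atTop_nhds_zero_nat D
  have h3 := h1.sub h2
  rw [sub_zero] at h3
  refine h3.congr (fun n => ?_)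
  simp only [hu]
  rw [← sub_div]
  congr 1
  ring

/-- The homogenisation of `f`. -/
noncomputable def homog (f : G → ℝ) (x : G) : ℝ :=
  limUnder atTop (fun n : ℕ => f (x ^ n) / n)

theorem tendsto_homog {f : G → ℝ} {D : ℝ} (h : QM f D) (x : G) :
    Tendsto (fun n : ℕ => f (x ^ n) / n) atTop (𝓝 (homog f x)) :=
  tendsto_nhds_limUnder (exists_lim h x)

theorem homog_sub {f : G → ℝ} {D : ℝ} (h : QM f D) (x : G) : |homog f x - f x| ≤ D := by
  have h1 : Tendsto (fun n : ℕ => f (x ^ (n + 1)) / ((n + 1 : ℕ) : ℝ)) atTop (𝓝 (homog f x)) :=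
    (tendsto_homog h x).comp (tendsto_add_atTop_nat 1)
  have h2 := (h1.sub_const (f x)).abs
  refine le_of_tendsto' h2 (fun n => ?_)
  have h3 : (0 : ℝ) < ((n + 1 : ℕ) : ℝ) := by positivity
  have h4 : f (x ^ (n + 1)) / ((n + 1 : ℕ) : ℝ) - f x
      = (f (x ^ (n + 1)) - ((n : ℝ) + 1) * f x) / ((n + 1 : ℕ) : ℝ) := by
    push_cast
    field_simp
  rw [h4, abs_div, abs_of_pos h3, div_le_iff₀ h3]
  have h5 := h.powSucc x n
  have hD := h.nonneg
  push_cast
  nlinarith

theorem homog_pow {f : G → ℝ} {D : ℝ} (h : QM f D) (x : G) (k : ℕ) :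
    homog f (x ^ k) = k * homog f x := by
  refine tendsto_nhds_unique (tendsto_homog h (x ^ k)) ?_
  rcases Nat.eq_zero_or_pos k with rfl | hk
  · simp only [pow_zero, one_pow, Nat.cast_zero, zero_mul]
    exact tendsto_const_div_atTop_nhds_zero_nat (f 1)
  · have h1 : Tendsto (fun n : ℕ => k * n) atTop atTop :=
      tendsto_atTop_atTop.2 (fun b => ⟨b, fun n hn => le_trans hn (Nat.le_mul_of_pos_left n hk)⟩)
    have h2 := (tendsto_homog h x).comp h1
    have h3 := h2.const_mul (k : ℝ)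
    refine h3.congr (fun n => ?_)
    simp only [Function.comp]
    rw [← pow_mul]
    have hk' : (k : ℝ) ≠ 0 := by positivity
    push_cast
    rw [mul_div_assoc']
    rw [mul_div_mul_left _ _ hk']

theorem homog_one {f : G → ℝ} {D : ℝ} (h : QM f D) : homog f (1 : G) = 0 := by
  have h1 := homog_pow h (1 : G) 0
  simpa using h1

private theorem tendsto_zero_of_bdd {u : ℕ → ℝ} {C : ℝ} (h : ∀ n, |u n| ≤ C) :
    Tendsto (fun n : ℕ => u n / (n : ℝ)) atTop (𝓝 0) := by
  have h1 : Tendsto (fun n : ℕ => C / (n : ℝ)) atTop (𝓝 0) :=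
    tendsto_const_div_atTop_nhds_zero_nat C
  refine squeeze_zero_norm (fun n => ?_) h1
  rw [Real.norm_eq_abs, abs_div, Nat.abs_cast]
  exact div_le_div_of_nonneg_right (h n) (Nat.cast_nonneg n)

theorem homog_inv {f : G → ℝ} {D : ℝ} (h : QM f D) (x : G) :
    homog f x⁻¹ = -homog f x := by
  refine tendsto_nhds_unique (tendsto_homog h x⁻¹) ?_
  have h1 := (tendsto_homog h x).neg
  have h2 : Tendsto (fun n : ℕ => (f (x⁻¹ ^ n) + f (x ^ n)) / (n : ℝ)) atTop (𝓝 0) := by
    refine tendsto_zero_of_bdd (C := 2 * D) (fun n => ?_)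
    have h3 := h (x⁻¹ ^ n) (x ^ n)
    have h4 : x⁻¹ ^ n * x ^ n = 1 := by
      rw [inv_pow, inv_mul_cancel]
    rw [h4] at h3
    have h5 := abs_le.1 h3
    have h6 := abs_le.1 h.one
    rw [abs_le]
    constructor <;> linarith [h5.1, h5.2, h6.1, h6.2]
  have h3 := h1.add h2
  rw [add_zero] at h3
  refine h3.congr (fun n => ?_)
  rw [add_div]
  ring

theorem homog_zpow {f : G → ℝ} {D : ℝ} (h : QM f D) (x : G) (k : ℤ) :
    homog f (x ^ k) = k * homog f x := by
  rcases Int.eq_nat_or_neg k with ⟨n, rfl | rfl⟩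
  · rw [zpow_natCast, homog_pow h]
    norm_num
  · rw [zpow_neg, zpow_natCast, homog_inv h, homog_pow h]
    push_cast
    ring

theorem homog_conj {f : G → ℝ} {D : ℝ} (h : QM f D) (x y : G) :
    homog f (y * x * y⁻¹) = homog f x := by
  refine tendsto_nhds_unique (tendsto_homog h (y * x * y⁻¹)) ?_
  have h2 : Tendsto (fun n : ℕ => (f ((y * x * y⁻¹) ^ n) - f (x ^ n)) / (n : ℝ)) atTop (𝓝 0) := by
    refine tendsto_zero_of_bdd (C := |f y| + |f y⁻¹| + 2 * D) (fun n => ?_)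
    rw [conj_pow]
    have h3 := abs_le.1 (h (y * x ^ n) y⁻¹)
    have h4 := abs_le.1 (h y (x ^ n))
    have h5 := abs_le.1 (le_refl |f y|)
    have h6 := abs_le.1 (le_refl |f y⁻¹|)
    rw [abs_le]
    constructor <;> linarith [h3.1, h3.2, h4.1, h4.2, h5.1, h5.2, h6.1, h6.2]
  have h3 := (tendsto_homog h x).add h2
  rw [add_zero] at h3
  refine h3.congr (fun n => ?_)
  rw [sub_div]
  ring

theorem homog_comm {f : G → ℝ} {D : ℝ} (h : QM f D) (x y : G) :
    homog f (x * y) = homog f (y * x) := by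
  have h1 := homog_conj h (x * y) x⁻¹
  have h2 : x⁻¹ * (x * y) * x⁻¹⁻¹ = y * x := by group
  rw [h2] at h1
  exact h1.symm

theorem homog_defect {f : G → ℝ} {D : ℝ} (h : QM f D) : QM (homog f) (4 * D) := by
  intro x y
  have h1 := abs_le.1 (homog_sub h (x * y))
  have h2 := abs_le.1 (homog_sub h x)
  have h3 := abs_le.1 (homog_sub h y)
  have h4 := abs_le.1 (h x y)
  rw [abs_le]
  constructor <;> linarith [h1.1, h1.2, h2.1, h2.2, h3.1, h3.2, h4.1, h4.2]

/-- A quasimorphism is bounded if and only if its homogenisation vanishes. -/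
theorem homog_ne_zero {f : G → ℝ} {D : ℝ} (h : QM f D) (hf : ¬ ∃ C : ℝ, ∀ x, |f x| ≤ C) :
    ∃ x, homog f x ≠ 0 := by
  by_contra hcon
  push Not at hcon
  refine hf ⟨D, fun x => ?_⟩
  have h1 := homog_sub h x
  rw [hcon x, zero_sub, abs_neg] at h1
  exact h1

end Pool.Agent.H67.NL
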