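import Mathlib
import Pool.Agent.H13.NL.Hyp
import Pool.Agent.H67.NL.Homog

/-!
# Sequences of isometries which fix both ends along an ultrafilter (for MP_3ca58e_al)

`X` satisfies the four point condition, `G` acts on it by isometries, `om` is an ultrafilter on
`ℕ`, `P n`, `Q n` are points of `X` with `gp o (P n) (Q n) ≤ C` whose distances from `o` tend to
infinity along `om`. `endGrp` is the group of the sequences `g : ℕ → G` with `dist o (g n • o)`
bounded along `om` and with `gp o (g n • P n) (P n)`, `gp o (g n • Q n) (Q n)` tending to infinity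
along `om`. The Busemann function is a quasimorphism on it; its homogenisation is `phi`, and
`|phi g|` is the limit of the stable lengths of the `g n` (`tendsto_ell_phi`).
-/

namespace Pool.Agent.H67.NL

open Filter Topology Pool.Agent.H13.NL

/-- Bounded real sequences converge along an ultrafilter. -/
theorem ulim_exists (om : Ultrafilter ℕ) (f : ℕ → ℝ) (C : ℝ)
    (h : ∀ᶠ n in (om : Filter ℕ), |f n| ≤ C) : ∃ l : ℝ, Tendsto f om (𝓝 l) := by
  have h1 : Set.Icc (-C) C ∈ ((om.map f : Ultrafilter ℝ) : Filter ℝ) := by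
    rw [Ultrafilter.coe_map, mem_map]
    filter_upwards [h] with n hn
    exact abs_le.1 hn
  have h2 := isCompact_Icc.ultrafilter_le_nhds' (om.map f) h1
  obtain ⟨l, -, hl⟩ := h2
  exact ⟨l, hl⟩

section

variable {X : Type*} [PseudoMetricSpace X] {G : Type*} [Group G] [MulAction G X]
  [IsIsometricSMul G X]

/-- `g` is bounded and fixes both ends along `om`. -/
structure Fixes (om : Filter ℕ) (o : X) (P Q : ℕ → X) (g : ℕ → G) : Prop where
  bdd : ∃ C : ℝ, ∀ᶠ n in om, dist o (g n • o) ≤ C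
  left : Tendsto (fun n => gp o (g n • P n) (P n)) om atTop
  right : Tendsto (fun n => gp o (g n • Q n) (Q n)) om atTop

private theorem half_mul {d : ℝ} (hd : FourPoint X d) (om : Filter ℕ) (o : X) (P : ℕ → X)
    (g h : ℕ → G) (hg : ∃ C : ℝ, ∀ᶠ n in om, dist o (g n • o) ≤ C)
    (h1 : Tendsto (fun n => gp o (g n • P n) (P n)) om atTop)
    (h2 : Tendsto (fun n => gp o (h n • P n) (P n)) om atTop) :
    Tendsto (fun n => gp o ((g n * h n) • P n) (P n)) om atTop := by
  obtain ⟨C, hC⟩ := hg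
  rw [tendsto_atTop] at h1 h2 ⊢
  intro b
  filter_upwards [hC, h1 (b + d), h2 (b + d + C)] with n e1 e2 e3
  have e4 := gp_min hd o ((g n * h n) • P n) (g n • P n) (P n)
  have e5 : gp o (h n • P n) (P n) - dist o (g n • o)
      ≤ gp o ((g n * h n) • P n) (g n • P n) := by
    have e6 := gp_base (g n • o) o ((g n * h n) • P n) (g n • P n)
    rw [mul_smul, gp_smul, dist_comm (g n • o) o] at e6
    rw [mul_smul]
    exact e6
  have e7 : b + d ≤ min (gp o ((g n * h n) • P n) (g n • P n)) (gp o (g n • P n) (P n)) :=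
    le_min (by linarith) e2
  linarith

private theorem half_inv (om : Filter ℕ) (o : X) (P : ℕ → X) (g : ℕ → G)
    (hg : ∃ C : ℝ, ∀ᶠ n in om, dist o (g n • o) ≤ C)
    (h1 : Tendsto (fun n => gp o (g n • P n) (P n)) om atTop) :
    Tendsto (fun n => gp o ((g n)⁻¹ • P n) (P n)) om atTop := by
  obtain ⟨C, hC⟩ := hg
  rw [tendsto_atTop] at h1 ⊢
  intro b
  filter_upwards [hC, h1 (b + C)] with n e1 e2
  have e3 : gp o ((g n)⁻¹ • P n) (P n) = gp (g n • o) (P n) (g n • P n) := by
    rw [← gp_smul (g n), smul_inv_smul]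
  rw [e3, gp_comm]
  have e4 := gp_base o (g n • o) (g n • P n) (P n)
  linarith

theorem Fixes.mul {d : ℝ} (hd : FourPoint X d) {om : Filter ℕ} {o : X} {P Q : ℕ → X}
    {g h : ℕ → G} (hg : Fixes om o P Q g) (hh : Fixes om o P Q h) :
    Fixes om o P Q (g * h) := by
  refine ⟨?_, ?_, ?_⟩
  · obtain ⟨C1, h1⟩ := hg.bdd
    obtain ⟨C2, h2⟩ := hh.bdd
    refine ⟨C1 + C2, ?_⟩
    filter_upwards [h1, h2] with n e1 e2
    have e3 := dist_mul_le o (g n) (h n)
    rw [Pi.mul_apply]
    linarith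
  · exact half_mul hd om o P g h hg.bdd hg.left hh.left
  · exact half_mul hd om o Q g h hg.bdd hg.right hh.right

theorem Fixes.inv {om : Filter ℕ} {o : X} {P Q : ℕ → X}
    {g : ℕ → G} (hg : Fixes om o P Q g) : Fixes om o P Q (g⁻¹) := by
  refine ⟨?_, ?_, ?_⟩
  · obtain ⟨C1, h1⟩ := hg.bdd
    refine ⟨C1, ?_⟩
    filter_upwards [h1] with n e1
    rw [Pi.inv_apply, H13.NL.dist_inv]
    exact e1
  · exact half_inv om o P g hg.bdd hg.left
  · exact half_inv om o Q g hg.bdd hg.right

omit [IsIsometricSMul G X] in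
theorem Fixes.one {om : Filter ℕ} {o : X} {P Q : ℕ → X}
    (hP : Tendsto (fun n => dist o (P n)) om atTop)
    (hQ : Tendsto (fun n => dist o (Q n)) om atTop) :
    Fixes om o P Q (1 : ℕ → G) := by
  refine ⟨⟨0, ?_⟩, ?_, ?_⟩
  · refine Eventually.of_forall (fun n => ?_)
    rw [Pi.one_apply, one_smul, dist_self]
  · refine hP.congr (fun n => ?_)
    rw [Pi.one_apply, one_smul, gp_self]
  · refine hQ.congr (fun n => ?_)
    rw [Pi.one_apply, one_smul, gp_self]

/-- The group of the sequences which are bounded and fix both ends along `om`. -/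
def endGrp {d : ℝ} (hd : FourPoint X d) (om : Ultrafilter ℕ) (o : X) (P Q : ℕ → X)
    (hP : Tendsto (fun n => dist o (P n)) (om : Filter ℕ) atTop)
    (hQ : Tendsto (fun n => dist o (Q n)) (om : Filter ℕ) atTop) : Subgroup (ℕ → G) where
  carrier := {g | Fixes (om : Filter ℕ) o P Q g}
  mul_mem' := fun ha hb => Fixes.mul hd ha hb
  one_mem' := Fixes.one hP hQ
  inv_mem' := fun ha => Fixes.inv ha

theorem mem_endGrp {d : ℝ} (hd : FourPoint X d) (om : Ultrafilter ℕ) (o : X) (P Q : ℕ → X)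
    (hP : Tendsto (fun n => dist o (P n)) (om : Filter ℕ) atTop)
    (hQ : Tendsto (fun n => dist o (Q n)) (om : Filter ℕ) atTop) (g : ℕ → G) :
    g ∈ endGrp hd om o P Q hP hQ ↔ Fixes (om : Filter ℕ) o P Q g := Iff.rfl

/-- The Busemann function along the ultrafilter. -/
noncomputable def Bu (om : Ultrafilter ℕ) (o : X) (P : ℕ → X) (g : ℕ → G) : ℝ :=
  limUnder (om : Filter ℕ) (fun n => dist (P n) (g n • o) - dist (P n) o)

omit [IsIsometricSMul G X] in
theorem tendsto_Bu (om : Ultrafilter ℕ) (o : X) (P : ℕ → X) (g : ℕ → G)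
    (hg : ∃ C : ℝ, ∀ᶠ n in (om : Filter ℕ), dist o (g n • o) ≤ C) :
    Tendsto (fun n => dist (P n) (g n • o) - dist (P n) o) om (𝓝 (Bu om o P g)) := by
  obtain ⟨C, hC⟩ := hg
  refine tendsto_nhds_limUnder (ulim_exists om _ C ?_)
  filter_upwards [hC] with n hn
  have h1 := abs_dist_sub_le (g n • o) o (P n)
  rw [dist_comm (g n • o) (P n), dist_comm o (P n), dist_comm (g n • o) o] at h1
  exact h1.trans hn

omit [IsIsometricSMul G X] in
theorem Bu_congr (om : Ultrafilter ℕ) (o : X) (P : ℕ → X) (g u : ℕ → G)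
    (h : ∀ᶠ n in (om : Filter ℕ), g n = u n) : Bu om o P g = Bu om o P u := by
  unfold Bu limUnder
  congr 1
  refine Filter.map_congr ?_
  filter_upwards [h] with n hn
  rw [hn]

theorem Bu_defect {d : ℝ} (hd : FourPoint X d) (om : Ultrafilter ℕ) (o : X) (P Q : ℕ → X)
    (g h : ℕ → G) (hg : Fixes (om : Filter ℕ) o P Q g) (hh : Fixes (om : Filter ℕ) o P Q h) :
    |Bu om o P (g * h) - Bu om o P g - Bu om o P h| ≤ 2 * d := by
  have h1 := tendsto_Bu om o P (g * h) (hg.mul hd hh).bdd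
  have h2 := tendsto_Bu om o P g hg.bdd
  have h3 := tendsto_Bu om o P h hh.bdd
  have h4 := ((h1.sub h2).sub h3).abs
  refine le_of_tendsto h4 ?_
  obtain ⟨C, hC⟩ := hh.bdd
  have h5 := hg.inv.left
  rw [tendsto_atTop] at h5
  filter_upwards [hC, h5 C] with n e1 e2
  exact busemann_add hd o (P n) (g n) (h n) (e1.trans e2)

variable {d : ℝ} (hd : FourPoint X d) (om : Ultrafilter ℕ) (o : X) (P Q : ℕ → X)
    (hP : Tendsto (fun n => dist o (P n)) (om : Filter ℕ) atTop)
    (hQ : Tendsto (fun n => dist o (Q n)) (om : Filter ℕ) atTop)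

/-- The Busemann function as a quasimorphism on `endGrp`. -/
theorem Bu_QM : QM (fun g : endGrp (G := G) hd om o P Q hP hQ => Bu om o P g.1) (2 * d) := by
  intro g h
  exact Bu_defect hd om o P Q g.1 h.1 g.2 h.2

/-- The homogenisation of the Busemann function. -/
noncomputable def phi (g : endGrp (G := G) hd om o P Q hP hQ) : ℝ :=
  homog (fun g : endGrp (G := G) hd om o P Q hP hQ => Bu om o P g.1) g

theorem phi_QM : QM (phi (G := G) hd om o P Q hP hQ) (8 * d) := by
  have h1 := homog_defect (Bu_QM (G := G) hd om o P Q hP hQ)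
  have h2 : 4 * (2 * d) = 8 * d := by ring
  rw [h2] at h1
  exact h1

theorem phi_zpow (g : endGrp (G := G) hd om o P Q hP hQ) (k : ℤ) :
    phi hd om o P Q hP hQ (g ^ k) = k * phi hd om o P Q hP hQ g :=
  homog_zpow (Bu_QM hd om o P Q hP hQ) g k

theorem phi_pow (g : endGrp (G := G) hd om o P Q hP hQ) (k : ℕ) :
    phi hd om o P Q hP hQ (g ^ k) = k * phi hd om o P Q hP hQ g :=
  homog_pow (Bu_QM hd om o P Q hP hQ) g k

theorem phi_conj (g h : endGrp (G := G) hd om o P Q hP hQ) :
    phi hd om o P Q hP hQ (h * g * h⁻¹) = phi hd om o P Q hP hQ g :=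
  homog_conj (Bu_QM hd om o P Q hP hQ) g h

theorem phi_congr (g u : endGrp (G := G) hd om o P Q hP hQ)
    (h : ∀ᶠ n in (om : Filter ℕ), g.1 n = u.1 n) :
    phi hd om o P Q hP hQ g = phi hd om o P Q hP hQ u := by
  have h1 := tendsto_homog (Bu_QM (G := G) hd om o P Q hP hQ) g
  have h2 := tendsto_homog (Bu_QM (G := G) hd om o P Q hP hQ) u
  refine tendsto_nhds_unique h1 (h2.congr (fun k => ?_))
  congr 1
  refine (Bu_congr om o P _ _ ?_).symm
  filter_upwards [h] with n hn
  show (g.1 ^ k) n = (u.1 ^ k) n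
  rw [Pi.pow_apply, Pi.pow_apply, hn]

/-- `phi (g u) = phi u` if `g n = 1` along `om`. -/
theorem phi_mul_left (g u : endGrp (G := G) hd om o P Q hP hQ)
    (h : ∀ᶠ n in (om : Filter ℕ), g.1 n = 1) :
    phi hd om o P Q hP hQ (g * u) = phi hd om o P Q hP hQ u := by
  refine phi_congr hd om o P Q hP hQ (g * u) u ?_
  filter_upwards [h] with n hn
  show g.1 n * u.1 n = u.1 n
  rw [hn, one_mul]

/-- `|phi g|` is the limit of the stable lengths. -/
theorem tendsto_ell_phi {C : ℝ} (hPQ : ∀ n, gp o (P n) (Q n) ≤ C)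
    (g : endGrp (G := G) hd om o P Q hP hQ) :
    Tendsto (fun n => ell o (g.1 n)) om (𝓝 |phi hd om o P Q hP hQ g|) := by
  obtain ⟨C1, hC1⟩ := g.2.bdd
  obtain ⟨L, hL⟩ := ulim_exists om (fun n => ell o (g.1 n)) C1 (by
    filter_upwards [hC1] with n hn
    rw [abs_of_nonneg (ell_nonneg o (g.1 n))]
    exact (ell_le o (g.1 n)).trans hn)
  have key : ∀ j : ℕ, (j : ℝ) * L ≤ |Bu om o P (g ^ j).1| + (2 * C + 6 * d) ∧
      |Bu om o P (g ^ j).1| ≤ (j : ℝ) * L + (2 * C + 10 * d) := by
    intro j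
    have hF : Fixes (om : Filter ℕ) o P Q (g ^ j).1 := (g ^ j).2
    have h1 := (tendsto_Bu om o P (g ^ j).1 hF.bdd).abs
    have h2 : Tendsto (fun n => (j : ℝ) * ell o (g.1 n)) om (𝓝 ((j : ℝ) * L)) :=
      hL.const_mul (j : ℝ)
    obtain ⟨C2, hC2⟩ := hF.bdd
    have h3 := hF.left
    have h4 := hF.right
    rw [tendsto_atTop] at h3 h4
    have h5 : ∀ n, (g ^ j).1 n = (g.1 n) ^ j := fun n => rfl
    constructor
    · refine le_of_tendsto_of_tendsto h2 (h1.add_const _) ?_
      filter_upwards [hC2, h3 (C + C2 + 2 * d + 1), h4 (C + C2 + 2 * d + 1)] with n e1 e2 e3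
      have e4 := lemmaE_one hd o (P n) (Q n) ((g ^ j).1 n) (hPQ n) (by linarith) (by linarith)
      have e5 := mul_ell_le o (g.1 n) j
      rw [← h5 n] at e5
      linarith
    · refine le_of_tendsto_of_tendsto h1 (h2.add_const _) ?_
      filter_upwards [hC2, h3 (C + C2 + 2 * d + 1), h3 (2 * C2), h4 (C + C2 + 2 * d + 1)]
        with n e1 e2 e2' e3
      have e4 := lemmaE_two hd o (P n) (Q n) ((g ^ j).1 n) (hPQ n) (by linarith) (by linarith)
        (by linarith)
      have e5 := ell_pow o (g.1 n) j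
      rw [← h5 n] at e5
      linarith
  have h1 := (tendsto_homog (Bu_QM (G := G) hd om o P Q hP hQ) g).abs
  have hz : ∀ c : ℝ, Tendsto (fun n : ℕ => c / (n : ℝ)) atTop (𝓝 0) :=
    fun c => tendsto_const_div_atTop_nhds_zero_nat c
  have h2 : L ≤ |phi hd om o P Q hP hQ g| := by
    have h3 := h1.add (hz (2 * C + 6 * d))
    rw [add_zero] at h3
    refine ge_of_tendsto h3 ?_
    filter_upwards [eventually_gt_atTop 0] with j hj
    have hj' : (0 : ℝ) < (j : ℝ) := by exact_mod_cast hj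
    rw [abs_div, abs_of_pos hj', ← add_div, le_div_iff₀ hj']
    have := (key j).1
    linarith
  have h4 : |phi hd om o P Q hP hQ g| ≤ L := by
    have h3 := (hz (2 * C + 10 * d)).const_add L
    rw [add_zero] at h3
    refine le_of_tendsto_of_tendsto h1 h3 ?_
    filter_upwards [eventually_gt_atTop 0] with j hj
    have hj' : (0 : ℝ) < (j : ℝ) := by exact_mod_cast hj
    rw [abs_div, abs_of_pos hj', div_le_iff₀ hj', add_mul, div_mul_cancel₀ _ hj'.ne']
    have := (key j).2
    linarith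
  rw [le_antisymm h4 h2]
  exact hL

/-- If the stable lengths are multiples of `lam > 0`, so is `|phi g|`, and the stable lengths are
equal to it along `om`. -/
theorem ell_eq_phi {C : ℝ} (hPQ : ∀ n, gp o (P n) (Q n) ≤ C) {lam : ℝ} (hlam : 0 < lam)
    (hell : ∀ g : G, ∃ k : ℕ, ell o g = k * lam)
    (g : endGrp (G := G) hd om o P Q hP hQ) :
    ∀ᶠ n in (om : Filter ℕ), ell o (g.1 n) = |phi hd om o P Q hP hQ g| := by
  have h1 := tendsto_ell_phi hd om o P Q hP hQ hPQ g
  choose k hk using fun n => hell (g.1 n)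
  have h2 : Tendsto (fun n => (k n : ℝ)) om (𝓝 (|phi hd om o P Q hP hQ g| / lam)) := by
    have h3 := h1.div_const lam
    refine h3.congr (fun n => ?_)
    rw [hk n, mul_div_assoc, div_self hlam.ne', mul_one]
  -- the sequence `k n` is constant along the ultrafilter
  set y := |phi hd om o P Q hP hQ g| / lam with hy
  have h3 : ∀ᶠ n in (om : Filter ℕ), |(k n : ℝ) - y| < 1 / 2 := by
    have := Metric.tendsto_nhds.1 h2 (1 / 2) (by norm_num)
    filter_upwards [this] with n hn
    rwa [Real.dist_eq] at hn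
  obtain ⟨m, hm⟩ := h3.exists
  have h4 : ∀ᶠ n in (om : Filter ℕ), k n = k m := by
    filter_upwards [h3] with n hn
    have e1 := abs_lt.1 hn
    have e2 := abs_lt.1 hm
    have e3 : |(k n : ℝ) - (k m : ℝ)| < 1 := by
      rw [abs_lt]
      constructor <;> linarith [e1.1, e1.2, e2.1, e2.2]
    have e4 : |((k n : ℤ) - (k m : ℤ) : ℤ)| < 1 := by
      have : ((|((k n : ℤ) - (k m : ℤ) : ℤ)| : ℤ) : ℝ) < ((1 : ℤ) : ℝ) := by
        push_cast
        exact e3
      exact_mod_cast this
    have e5 := Int.abs_lt_one_iff.1 e4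
    omega
  have h5 : Tendsto (fun n => (k n : ℝ)) om (𝓝 (k m : ℝ)) := by
    refine tendsto_const_nhds.congr' ?_
    filter_upwards [h4] with n hn
    rw [hn]
  have h6 := tendsto_nhds_unique h2 h5
  filter_upwards [h4] with n hn
  rw [hk n, hn, ← h6, hy, div_mul_cancel₀ _ hlam.ne']

end

end Pool.Agent.H67.NL
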